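import Pool.Agent.Helper28.Ram.Goals
import Pool.Agent.Helper65.LinSpace.Asym

/-!
# The parameters of the simulation of a random access machine: PAR3
-/

namespace Pool.Agent.Helper6.Ram

open Pool.Agent.Helper65.LinSpace Pool.Agent.Helper28.Ram Finset Filter

lemma gR_sq (n : ℕ) : n < gR n * gR n * ll n := by
  have h := Nat.lt_succ_sqrt (n / ll n)
  rw [Nat.div_lt_iff_lt_mul (ll_pos n)] at h
  exact h

theorem PAR3 : PAR3_stmt := by
  intro C ε hε
  obtain ⟨e, he0, he1, heε⟩ : ∃ e : ℝ, 0 < e ∧ e ≤ 1 / 4 ∧ e ≤ ε :=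
    ⟨min ε (1 / 4), by positivity, min_le_right _ _, min_le_left _ _⟩
  filter_upwards [ev_ll_le (show 0 < e / 3 by positivity),
    ev_le_rpow (32 * (|C| + 1)) (show 0 < e / 2 by positivity), eventually_ge_atTop 1]
    with n h1 h2 h3
  intro r s hs hrs hsC
  have hn1 : (1 : ℝ) ≤ (n : ℝ) := by exact_mod_cast h3
  set x : ℝ := (n : ℝ) + 1 with hx
  have hx0 : 0 < x := by positivity
  have hx1 : 1 ≤ x := by linarith
  have hC : C ≤ |C| := le_abs_self C
  have hC0 := abs_nonneg C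
  have hs1 : (1 : ℝ) ≤ (s : ℝ) := by exact_mod_cast hs
  set g : ℝ := (gR n : ℝ) with hg
  have hg0 : 0 ≤ g := Nat.cast_nonneg _
  -- the lower bound for `g`
  have h4 : x / 2 ≤ g * g * x ^ (e / 3) := by
    have h5 : (n : ℝ) < g * g * ll n := by
      have := gR_sq n
      rw [hg]
      exact_mod_cast this
    have h6 : g * g * ll n ≤ g * g * x ^ (e / 3) :=
      mul_le_mul_of_nonneg_left h1 (by positivity)
    linarith
  set y : ℝ := x ^ (1 / 2 - e / 6) with hy
  have hy0 : 0 < y := by positivity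
  have hyy : y * y = x ^ (1 - e / 3) := by
    rw [hy, ← Real.rpow_add hx0]
    congr 1
    ring
  have h5 : y * y * x ^ (e / 3) = x := by
    rw [hyy, ← Real.rpow_add hx0]
    conv_rhs => rw [← Real.rpow_one x]
    congr 1
    ring
  have h6 : y * y / 2 ≤ g * g := by
    have hp : 0 < x ^ (e / 3) := by positivity
    have : y * y / 2 * x ^ (e / 3) ≤ g * g * x ^ (e / 3) := by linarith
    exact le_of_mul_le_mul_right this hp
  have h7 : y / 2 ≤ g := by
    by_contra hc
    push Not at hc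
    nlinarith
  -- the condition on `s`
  set u : ℝ := x ^ (1 / 2 - e) with hu
  have hu1 : 1 ≤ u := Real.one_le_rpow hx1 (by linarith)
  have hyu : 32 * (|C| + 1) * u ≤ y := by
    have h8 : u * x ^ (e / 2) ≤ y := by
      rw [hu, hy, ← Real.rpow_add hx0]
      exact Real.rpow_le_rpow_of_exponent_le hx1 (by linarith)
    have h9 : 32 * (|C| + 1) * u ≤ x ^ (e / 2) * u :=
      mul_le_mul_of_nonneg_right h2 (by positivity)
    linarith
  have hsu : (s : ℝ) ≤ |C| * u := by
    have h8 : x ^ (1 / 2 - ε) ≤ u := Real.rpow_le_rpow_of_exponent_le hx1 (by linarith)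
    have h9 : 0 ≤ x ^ (1 / 2 - ε) := by positivity
    calc (s : ℝ) ≤ C * x ^ (1 / 2 - ε) := hsC
      _ ≤ |C| * x ^ (1 / 2 - ε) := mul_le_mul_of_nonneg_right hC h9
      _ ≤ |C| * u := mul_le_mul_of_nonneg_left h8 hC0
  have h2s : 2 * ((s : ℝ) + 1) ≤ g := by nlinarith
  -- the number of steps of a sub-block
  set q : ℕ := gR n / (s + 1) with hq
  have hq1 : g < ((q : ℝ) + 1) * ((s : ℝ) + 1) := by
    have : gR n < (q + 1) * (s + 1) := by
      have := Nat.lt_div_mul_add (a := gR n) (show 0 < s + 1 by omega)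
      rw [add_mul, one_mul]
      exact this
    rw [hg]
    exact_mod_cast this
  have hq2 : g ≤ 4 * s * q := by
    have hq0 : (0 : ℝ) ≤ q := Nat.cast_nonneg _
    nlinarith
  have hgsq : g ^ 3 ≤ 4 * s * (g * (g * q)) := by
    have : 0 ≤ g * g := by positivity
    nlinarith
  have hy3 : y ^ 3 / 8 ≤ g ^ 3 := by
    have : (y / 2) ^ 3 ≤ g ^ 3 := pow_le_pow_left₀ (by positivity) h7 3
    have h8 : (y / 2) ^ 3 = y ^ 3 / 8 := by ring
    linarith
  have hrs' : (r : ℝ) * s ≤ y ^ 3 / 32 := by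
    have h8 : x ^ (3 / 2 - ε) ≤ x ^ (3 / 2 - e) :=
      Real.rpow_le_rpow_of_exponent_le hx1 (by linarith)
    have h9 : 0 ≤ x ^ (3 / 2 - ε) := by positivity
    have h10 : x ^ (3 / 2 - e) * x ^ (e / 2) = y ^ 3 := by
      rw [hy, ← Real.rpow_add hx0, ← Real.rpow_natCast, ← Real.rpow_mul hx0.le]
      congr 1
      push_cast
      ring
    have h11 : 0 < x ^ (3 / 2 - e) := by positivity
    calc (r : ℝ) * s ≤ C * x ^ (3 / 2 - ε) := hrs
      _ ≤ |C| * x ^ (3 / 2 - ε) := mul_le_mul_of_nonneg_right hC h9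
      _ ≤ |C| * x ^ (3 / 2 - e) := mul_le_mul_of_nonneg_left h8 hC0
      _ ≤ (x ^ (e / 2) / 32) * x ^ (3 / 2 - e) :=
        mul_le_mul_of_nonneg_right (by linarith) h11.le
      _ = y ^ 3 / 32 := by rw [← h10]; ring
  constructor
  · have : (s : ℝ) < g := by linarith
    rw [hg] at this
    exact_mod_cast this
  · have h8 : (r : ℝ) ≤ g * (g * q) := by
      have h9 : (r : ℝ) * s ≤ (g * (g * q)) * s := by linarith
      exact le_of_mul_le_mul_right h9 (by linarith)
    rw [hg] at h8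
    exact_mod_cast h8

end Pool.Agent.Helper6.Ram
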